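import Pool.Agent.WHC.PhiL

/-!
# The conductance of the graph of Whitehead moves on labelled cubic graphs is at most 2

Definitions: `Cubic V` (cubic multigraphs with vertex set `V`), `Move` (Whitehead move), `phiSet`,
`phi` (conductance) in `Pool/Agent/WHC/Defs.lean`; `GammaL n` (the graph `Γ^l_n`) in
`Pool/Agent/WHC/DefsL.lean`.
-/

set_option autoImplicit false

namespace Pool.Agent.Results.MP_9c0bfb_co.LabelledConductance

open Pool.Agent.WHC

/-- For every even `n ≥ 4` the conductance of the (finite) graph `Γ^l_n` is at most `2`. -/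
theorem result (n : ℕ) (hn : Even n) (h4 : 4 ≤ n) :
    Finite (WHC.Cubic (Fin n)) ∧ phi (GammaL n) ≤ 2 := by
  refine ⟨inferInstance, ?_⟩
  classical
  letI : Fintype (WHC.Cubic (Fin n)) := Fintype.ofFinite _
  exact (mainL n hn h4).1

end Pool.Agent.Results.MP_9c0bfb_co.LabelledConductance
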