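import Pool.Agent.WHC.PhiL

/-!
# Small Laplacian eigenvalues of the graph of Whitehead moves on labelled cubic graphs

Definitions: `Cubic V` (cubic multigraphs with vertex set `V`) and `Move` (Whitehead move) in
`Pool/Agent/WHC/Defs.lean`; `GammaL n` (the graph `Γ^l_n`), `eigCount Γ t` (number of Laplacian
eigenvalues `≤ t`) and `lam Γ k` (`λ_k`, the `k`-th smallest eigenvalue of the Laplacian `D - A`) in
`Pool/Agent/WHC/DefsL.lean`.
-/

set_option autoImplicit false

namespace Pool.Agent.Results.MP_9c0bfb_co.LabelledSpectrum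

open Pool.Agent.WHC

/-- Let `n ≥ 4` be even and `c = 2 + min (1, 12 / (n - 2))`. For every `t ≥ 1` and every `k ≥ 1`
with `k ≤ n` or `k ≤ ∑_{s ≤ t} (n/2 choose s)`, at least `k` Laplacian eigenvalues of the (finite)
graph `Γ^l_n` are at most `c t`, so that the `k`-th smallest one is at most `c t`. -/
theorem result (n : ℕ) (hn : Even n) (h4 : 4 ≤ n) :
    Finite (WHC.Cubic (Fin n)) ∧
    ∀ [Fintype (WHC.Cubic (Fin n))] [DecidableEq (WHC.Cubic (Fin n))]
      [DecidableRel (GammaL n).Adj] (t k : ℕ), 1 ≤ t → 1 ≤ k →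
      k ≤ max n (∑ s ∈ Finset.range (t + 1), (n / 2).choose s) →
        k ≤ eigCount (GammaL n) ((2 + min 1 (12 / ((n : ℝ) - 2))) * (t : ℝ)) ∧
        lam (GammaL n) k ≤ (2 + min 1 (12 / ((n : ℝ) - 2))) * (t : ℝ) := by
  refine ⟨inferInstance, ?_⟩
  intro _ _ _ t k ht hk hk'
  obtain ⟨_, h2, h3⟩ := mainL n hn h4
  have hc : k ≤ eigCount (GammaL n) ((2 + min 1 (12 / ((n : ℝ) - 2))) * (t : ℝ)) := by
    rcases le_max_iff.1 hk' with h | h
    · refine (h.trans h2).trans ?_
      have h6 : (1 : ℝ) ≤ t := by exact_mod_cast ht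
      have h7 : 0 ≤ 2 + eps n := by have := eps_nonneg (n := n) (by omega); linarith
      have h8 := mul_le_mul_of_nonneg_left h6 h7
      rw [mul_one] at h8
      unfold eigCount
      apply Finset.card_le_card
      intro i hi
      rw [Finset.mem_filter] at hi ⊢
      exact ⟨hi.1, hi.2.trans h8⟩
    · exact h.trans (h3 t)
  exact ⟨hc, lam_le _ hk hc⟩

end Pool.Agent.Results.MP_9c0bfb_co.LabelledSpectrum
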