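import Pool.Agent.WHC.Two2

/-!
# The second Laplacian eigenvalue of the graph of Whitehead moves on labelled cubic graphs

Definitions: `Cubic V` (cubic multigraphs with vertex set `V`) and `Move` (Whitehead move) in
`Pool/Agent/WHC/Defs.lean`; `GammaL n` (the graph `Γ^l_n`), `eigCount Γ t` (number of Laplacian
eigenvalues `≤ t`) and `lam Γ k` (`λ_k`, the `k`-th smallest eigenvalue of the Laplacian `D - A`) in
`Pool/Agent/WHC/DefsL.lean`.
-/

set_option autoImplicit false

namespace Pool.Agent.Results.MP_9c0bfb_co.SecondEigenvalue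

open Pool.Agent.WHC

/-- For every even `n ≥ 16` at least two Laplacian eigenvalues of the (finite) graph `Γ^l_n` are at
most `(138 / 89) (n + 4) / (n - 14)`, so that the second smallest one is. -/
theorem result (n : ℕ) (hn : Even n) (h16 : 16 ≤ n) :
    Finite (WHC.Cubic (Fin n)) ∧
    ∀ [Fintype (WHC.Cubic (Fin n))] [DecidableEq (WHC.Cubic (Fin n))]
      [DecidableRel (GammaL n).Adj],
      2 ≤ eigCount (GammaL n) (138 / 89 * (((n : ℝ) + 4) / ((n : ℝ) - 14))) ∧
      lam (GammaL n) 2 ≤ 138 / 89 * (((n : ℝ) + 4) / ((n : ℝ) - 14)) := by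
  refine ⟨inferInstance, ?_⟩
  intro _ _ _
  exact ⟨mainTwo n hn h16, lam_le _ (by norm_num) (mainTwo n hn h16)⟩

end Pool.Agent.Results.MP_9c0bfb_co.SecondEigenvalue
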