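import Pool.Agent.WHC.Main

/-!
# The conductance of the graph of Whitehead moves on unlabelled cubic graphs is at most 2

Definitions (`Pool/Agent/WHC/Defs.lean`): `Cubic V` is the type of cubic multigraphs with vertex
set `V`, `UCubic n` the type of isomorphism classes of `Cubic (Fin n)`, `Move` a Whitehead move,
`GammaU n` the graph `Γ^u_n`, `phiSet Γ X = |∂X| / min (|X|, |V ∖ X|)` and `phi Γ` the conductance.
-/

set_option autoImplicit false

namespace Pool.Agent.Results.MP_9c0bfb_co.UnlabelledAtMostTwo

open Pool.Agent.WHC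

/-- For every even `n ≥ 4` the graph `Γ^u_n` has a vertex with at most two neighbours, and its
conductance is at most `2` (`Γ^u_n` is a finite graph). -/
theorem result (n : ℕ) (hn : Even n) (h4 : 4 ≤ n) :
    Finite (UCubic n) ∧ (∃ x : UCubic n, ((GammaU n).neighborSet x).ncard ≤ 2) ∧
      phi (GammaU n) ≤ 2 :=
  ⟨inferInstance, main n hn h4⟩

end Pool.Agent.Results.MP_9c0bfb_co.UnlabelledAtMostTwo
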